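import Pool.Agent.Helper60_AK.StmtA

/-! Squad AK, module A1 (helper59): rapidly decreasing sequences on `Z4`. -/

set_option autoImplicit false

namespace Pool.Agent.AK.H59

open Pool.Agent.AK

/-! ### the weights -/

theorem sq4_nonneg (k : Z4) : 0 ≤ sq4 k := by
  unfold sq4; positivity

theorem sq4_neg (k : Z4) : sq4 (-k) = sq4 k := by
  unfold sq4; simp

theorem sq_le_sq4 (k : Z4) (j : Fin 4) : ((k j : ℤ) : ℝ) ^ 2 ≤ sq4 k := by
  unfold sq4
  exact Finset.single_le_sum (f := fun i => ((k i : ℤ) : ℝ) ^ 2) (fun i _ => sq_nonneg _)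
    (Finset.mem_univ j)

theorem Lam_sq {A : ℝ} (hA : 0 ≤ A) (k : Z4) : Lam A k ^ 2 = A + sq4 k := by
  unfold Lam
  exact Real.sq_sqrt (by have := sq4_nonneg k; linarith)

theorem one_le_Lam {A : ℝ} (hA : 1 ≤ A) (k : Z4) : 1 ≤ Lam A k := by
  unfold Lam
  rw [Real.one_le_sqrt]
  have := sq4_nonneg k
  linarith

theorem Lam_pos {A : ℝ} (hA : 1 ≤ A) (k : Z4) : 0 < Lam A k :=
  lt_of_lt_of_le one_pos (one_le_Lam hA k)

theorem Lam_neg (A : ℝ) (k : Z4) : Lam A (-k) = Lam A k := by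
  unfold Lam; rw [sq4_neg]

theorem abs_le_Lam (k : Z4) (j : Fin 4) : |((k j : ℤ) : ℝ)| ≤ Lam 1 k := by
  refine abs_le_of_sq_le_sq ?_ (Lam_pos le_rfl k).le
  rw [Lam_sq zero_le_one]
  have := sq_le_sq4 k j
  linarith

theorem Lam_le_one {A : ℝ} (hA : 1 ≤ A) (k : Z4) : Lam A k ≤ √A * Lam 1 k := by
  unfold Lam
  rw [← Real.sqrt_mul (by linarith)]
  refine Real.sqrt_le_sqrt ?_
  have := sq4_nonneg k
  nlinarith

/-- Peetre -/
theorem peetre {A : ℝ} (hA : 1 ≤ A) (k l : Z4) : Lam A k ≤ 2 * (Lam A (k - l) * Lam A l) := by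
  have h1 : sq4 k ≤ 2 * sq4 (k - l) + 2 * sq4 l := by
    unfold sq4
    rw [Finset.mul_sum, Finset.mul_sum, ← Finset.sum_add_distrib]
    refine Finset.sum_le_sum fun i _ => ?_
    rw [Pi.sub_apply]
    push_cast
    nlinarith [sq_nonneg (((k i : ℤ) : ℝ) - 2 * ((l i : ℤ) : ℝ))]
  have h2 := Lam_pos hA k
  have h3 := Lam_pos hA (k - l)
  have h4 := Lam_pos hA l
  refine le_of_sq_le_sq ?_ (by positivity)
  have e : (2 * (Lam A (k - l) * Lam A l)) ^ 2 = 4 * (Lam A (k - l) ^ 2 * Lam A l ^ 2) := by ring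
  rw [e, Lam_sq (by linarith), Lam_sq (by linarith), Lam_sq (by linarith)]
  have h5 := sq4_nonneg (k - l)
  have h6 := sq4_nonneg l
  nlinarith [mul_nonneg h5 h6, mul_nonneg (sub_nonneg.mpr hA) h5, mul_nonneg (sub_nonneg.mpr hA) h6,
    mul_nonneg (sub_nonneg.mpr hA) (sub_nonneg.mpr hA)]

/-! ### summability -/

theorem summable_pi (f : ℤ → ℝ) (hf : Summable f) (h0 : ∀ n, 0 ≤ f n) : ∀ n : ℕ,
    Summable (fun x : Fin n → ℤ => ∏ i, f (x i))
  | 0 => (hasSum_fintype _).summable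
  | n + 1 => by
    rw [← (Fin.consEquiv (fun _ : Fin (n + 1) => ℤ)).summable_iff]
    have h := Summable.mul_of_nonneg hf (summable_pi f hf h0 n) h0
      (fun x => Finset.prod_nonneg fun i _ => h0 (x i))
    refine h.congr fun p => ?_
    show _ = ∏ i, f (Fin.cons (α := fun _ => ℤ) p.1 p.2 i)
    rw [Fin.prod_univ_succ]
    simp

theorem summable_one_add_sq : Summable (fun n : ℤ => (1 + (n : ℝ) ^ 2)⁻¹) := by
  have h1 : Summable (fun n : ℤ => 1 / (n : ℝ) ^ 2) := Real.summable_one_div_int_pow.mpr one_lt_two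
  have h2 : Summable (fun n : ℤ => if n = 0 then (1 : ℝ) else 0) := (hasSum_ite_eq 0 1).summable
  refine Summable.of_nonneg_of_le (fun n => by positivity) (fun n => ?_) (h1.add h2)
  by_cases hn : n = 0
  · subst hn; simp
  · rw [if_neg hn, add_zero, one_div]
    have : (0 : ℝ) < (n : ℝ) ^ 2 := by positivity
    exact inv_anti₀ this (by linarith)

theorem summable_Lam8 : Summable (fun k : Z4 => (Lam 1 k ^ 8)⁻¹) := by
  refine Summable.of_nonneg_of_le (fun k => ?_) (fun k => ?_)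
    (summable_pi _ summable_one_add_sq (fun n => by positivity) 4)
  · have := Lam_pos le_rfl k
    positivity
  · rw [Finset.prod_inv_distrib]
    refine inv_anti₀ (Finset.prod_pos fun i _ => by positivity) ?_
    have e : Lam 1 k ^ 8 = ∏ _i : Fin 4, (1 + sq4 k) := by
      rw [Finset.prod_const, Finset.card_univ, Fintype.card_fin, ← Lam_sq zero_le_one]
      ring
    rw [e]
    refine Finset.prod_le_prod (fun i _ => by positivity) fun i _ => ?_
    have := sq_le_sq4 k i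
    linarith

/-- numerical version of `Rap` -/
def RR (α : Z4 → ℝ) : Prop := ∀ n : ℕ, ∃ C : ℝ, ∀ k, Lam 1 k ^ n * α k ≤ C

theorem RR.summable {α : Z4 → ℝ} (h0 : ∀ k, 0 ≤ α k) (h : RR α) (n : ℕ) :
    Summable (fun k => Lam 1 k ^ n * α k) := by
  obtain ⟨C, hC⟩ := h (n + 8)
  refine Summable.of_nonneg_of_le (fun k => ?_) (fun k => ?_) (summable_Lam8.mul_left C)
  · have := Lam_pos le_rfl k
    have := h0 k
    positivity
  · have hp := Lam_pos le_rfl k
    rw [← div_eq_mul_inv, le_div_iff₀ (by positivity)]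
    calc Lam 1 k ^ n * α k * Lam 1 k ^ 8 = Lam 1 k ^ (n + 8) * α k := by ring
      _ ≤ C := hC k

theorem conv_rap {V : Type} [NormedAddCommGroup V] [CompleteSpace V] {α β : Z4 → ℝ}
    (hβ0 : ∀ k, 0 ≤ β k) (hα : RR α) (hβ : RR β) {F : Z4 → Z4 → V}
    (hF : ∀ k l, ‖F k l‖ ≤ α (k - l) * β l) :
    Rap (fun k => ∑' l, F k l) ∧ ∀ k, Summable (F k) := by
  have hsβ : ∀ n, Summable (fun l => Lam 1 l ^ n * β l) := fun n => RR.summable hβ0 hβ n
  have hnorm : ∀ k, Summable (fun l => ‖F k l‖) := by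
    intro k
    obtain ⟨C, hC⟩ := hα 0
    refine Summable.of_nonneg_of_le (fun l => norm_nonneg _) (fun l => ?_)
      ((hsβ 0).mul_left C)
    refine (hF k l).trans ?_
    have := hC (k - l)
    simp only [pow_zero, one_mul] at this ⊢
    exact mul_le_mul_of_nonneg_right this (hβ0 l)
  refine ⟨fun n => ?_, fun k => (hnorm k).of_norm⟩
  obtain ⟨C, hC⟩ := hα n
  refine ⟨∑' l, 2 ^ n * (C * (Lam 1 l ^ n * β l)), fun k => ?_⟩
  have hk := Lam_pos le_rfl k
  calc Lam 1 k ^ n * ‖∑' l, F k l‖ ≤ Lam 1 k ^ n * ∑' l, ‖F k l‖ := by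
        refine mul_le_mul_of_nonneg_left ?_ (by positivity)
        exact norm_tsum_le_tsum_norm (hnorm k)
    _ = ∑' l, Lam 1 k ^ n * ‖F k l‖ := (tsum_mul_left).symm
    _ ≤ ∑' l, 2 ^ n * (C * (Lam 1 l ^ n * β l)) := by
        refine Summable.tsum_le_tsum (fun l => ?_) ((hnorm k).mul_left _)
          (((hsβ n).mul_left C).mul_left _)
        have h1 := Lam_pos le_rfl (k - l)
        have h2 := Lam_pos le_rfl l
        calc Lam 1 k ^ n * ‖F k l‖
            ≤ (2 * (Lam 1 (k - l) * Lam 1 l)) ^ n * (α (k - l) * β l) := by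
              gcongr
              · exact peetre le_rfl k l
              · exact hF k l
          _ = 2 ^ n * ((Lam 1 (k - l) ^ n * α (k - l)) * (Lam 1 l ^ n * β l)) := by ring
          _ ≤ 2 ^ n * (C * (Lam 1 l ^ n * β l)) := by
              refine mul_le_mul_of_nonneg_left ?_ (by positivity)
              refine mul_le_mul_of_nonneg_right (hC (k - l)) ?_
              have := hβ0 l
              positivity

theorem Rap.rr {V : Type} [NormedAddCommGroup V] {w : Z4 → V} (hw : Rap w) :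
    RR (fun k => ‖w k‖) := hw

theorem Rap.of_le {V W : Type} [NormedAddCommGroup V] [NormedAddCommGroup W] {w : Z4 → V}
    {u : Z4 → W} (hw : Rap w) (K : ℝ) (hK : 0 ≤ K) (m : ℕ)
    (h : ∀ k, ‖u k‖ ≤ K * (Lam 1 k ^ m * ‖w k‖)) : Rap u := by
  intro n
  obtain ⟨C, hC⟩ := hw (n + m)
  refine ⟨K * C, fun k => ?_⟩
  have hp := Lam_pos le_rfl k
  calc Lam 1 k ^ n * ‖u k‖ ≤ Lam 1 k ^ n * (K * (Lam 1 k ^ m * ‖w k‖)) :=
        mul_le_mul_of_nonneg_left (h k) (by positivity)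
    _ = K * (Lam 1 k ^ (n + m) * ‖w k‖) := by ring
    _ ≤ K * C := mul_le_mul_of_nonneg_left (hC k) hK

/-- weights with integer exponents -/
theorem Lam_zpow_le {A : ℝ} (hA : 1 ≤ A) (s : ℤ) (k : Z4) :
    Lam A k ^ s ≤ √A ^ s.natAbs * Lam 1 k ^ s.natAbs := by
  have h1 := one_le_Lam hA k
  calc Lam A k ^ s ≤ Lam A k ^ (s.natAbs : ℤ) := zpow_le_zpow_right₀ h1 (by omega)
    _ = Lam A k ^ s.natAbs := zpow_natCast _ _
    _ ≤ (√A * Lam 1 k) ^ s.natAbs :=
        pow_le_pow_left₀ (Lam_pos hA k).le (Lam_le_one hA k) _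
    _ = _ := mul_pow _ _ _

theorem a1 : A1Stmt := by
  refine ⟨?_, ?_, ?_, ?_, ?_, ?_, ?_⟩
  · intro V _ _ _ a w ha hw
    exact conv_rap (fun k => norm_nonneg (w k)) ha hw
      (F := fun k l => a (k - l) • w l) (fun k l => (norm_smul_le _ _))
  · intro V _ _ _ a w ha hw
    exact conv_rap (fun k => norm_nonneg (w k)) ha hw
      (F := fun k l => (a (k - l)) (w l)) (fun k l => ContinuousLinearMap.le_opNorm _ _)
  · intro V _ _ j w hw
    refine Rap.of_le hw (2 * Real.pi) (by positivity) 1 fun k => ?_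
    show ‖(2 * (Real.pi : ℂ) * Complex.I * ((k j : ℤ) : ℂ)) • w k‖ ≤ _
    rw [norm_smul]
    have h1 : ‖(2 * (Real.pi : ℂ) * Complex.I * ((k j : ℤ) : ℂ))‖ =
        2 * Real.pi * |((k j : ℤ) : ℝ)| := by
      rw [norm_mul, norm_mul, norm_mul, Complex.norm_I, Complex.norm_real, Complex.norm_intCast,
        Real.norm_of_nonneg Real.pi_pos.le]
      simp
    rw [h1, pow_one]
    calc 2 * Real.pi * |((k j : ℤ) : ℝ)| * ‖w k‖ ≤ 2 * Real.pi * Lam 1 k * ‖w k‖ := by
          have := abs_le_Lam k j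
          have := Real.pi_pos
          gcongr
      _ = _ := by ring
  · intro a ha n
    obtain ⟨C, hC⟩ := ha n
    refine ⟨C, fun k => ?_⟩
    have h := hC (-k)
    rw [Lam_neg] at h
    show Lam 1 k ^ n * ‖(starRingEnd ℂ) (a (-k))‖ ≤ C
    rw [RCLike.norm_conj]
    exact h
  · intro N a ha n
    obtain ⟨C, hC⟩ := ha n
    refine ⟨C, fun k => ?_⟩
    have h := hC (-k)
    rw [Lam_neg] at h
    show Lam 1 k ^ n * ‖ContinuousLinearMap.adjoint (a (-k))‖ ≤ C
    rw [LinearIsometryEquiv.norm_map]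
    exact h
  · intro V _ _ A s w hA hw
    have hnorm : ∀ k, ‖Lm A s w k‖ = Lam A k ^ s * ‖w k‖ := by
      intro k
      show ‖((Lam A k ^ s : ℝ) : ℂ) • w k‖ = _
      rw [norm_smul, Complex.norm_real, Real.norm_of_nonneg]
      have := Lam_pos hA k
      positivity
    have hle : ∀ (s : ℤ) k, Lam A k ^ s * ‖w k‖ ≤
        √A ^ s.natAbs * (Lam 1 k ^ s.natAbs * ‖w k‖) := by
      intro s k
      rw [← mul_assoc]
      exact mul_le_mul_of_nonneg_right (Lam_zpow_le hA s k) (norm_nonneg _)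
    have hsum : ∀ s : ℤ, Summable (fun k => Lam A k ^ s * ‖w k‖) := by
      intro s
      refine Summable.of_nonneg_of_le (fun k => ?_) (hle s)
        ((RR.summable (fun k => norm_nonneg (w k)) hw s.natAbs).mul_left _)
      have := Lam_pos hA k
      positivity
    refine ⟨Rap.of_le hw (√A ^ s.natAbs) (by positivity) s.natAbs fun k => ?_, hsum s, ?_⟩
    · rw [hnorm]
      exact hle s k
    · obtain ⟨C, hC⟩ := hw 0
      refine Summable.of_nonneg_of_le (fun k => ?_) (fun k => ?_) ((hsum (2 * s)).mul_right C)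
      · have := Lam_pos hA k
        positivity
      · have h := hC k
        rw [pow_zero, one_mul] at h
        have hp := Lam_pos hA k
        calc Lam A k ^ (2 * s) * ‖w k‖ ^ 2 = Lam A k ^ (2 * s) * ‖w k‖ * ‖w k‖ := by ring
          _ ≤ Lam A k ^ (2 * s) * ‖w k‖ * C := by gcongr
  · intro V _ _ a ha
    refine Rap.of_le ha 1 zero_le_one 0 fun k => ?_
    rw [pow_zero, one_mul, one_mul]
    refine ContinuousLinearMap.opNorm_le_bound _ (norm_nonneg _) fun x => ?_
    show ‖a k • x‖ ≤ _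
    exact norm_smul_le _ _

end Pool.Agent.AK.H59
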