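import Pool.Agent.Helper60_AK.StmtB
import Pool.Agent.Helper59_AK.A1

/-! Squad AK, module B1 (helper59): Fourier coefficients of smooth periodic functions on `R4`. -/

set_option autoImplicit false

open MeasureTheory Set

namespace Pool.Agent.AK.H59

open Pool.Agent.AK

/-! ### the box -/

/-- the box -/
def bx : Set R4 := Set.pi Set.univ (fun _ : Fin 4 => Set.Ioc (0 : ℝ) 1)

theorem bx_ae : bx =ᵐ[volume] Set.Icc (0 : R4) 1 := by
  have h := Measure.univ_pi_Ioc_ae_eq_Icc (μ := fun _ : Fin 4 => (volume : Measure ℝ))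
    (f := (0 : R4)) (g := 1)
  rw [← volume_pi] at h
  exact h

theorem bx_sub : bx ⊆ Set.Icc (0 : R4) 1 := by
  intro x hx
  exact ⟨fun i => (hx i (mem_univ i)).1.le, fun i => (hx i (mem_univ i)).2⟩

theorem measurableSet_bx : MeasurableSet bx :=
  MeasurableSet.univ_pi fun _ => measurableSet_Ioc

theorem volume_bx : volume bx = 1 := by
  rw [measure_congr bx_ae, Real.volume_Icc_pi]
  simp

theorem integrableOn_bx {h : R4 → ℂ} (hh : Continuous h) : IntegrableOn h bx :=
  (hh.continuousOn.integrableOn_compact isCompact_Icc).mono_set bx_sub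

theorem FC_def (f : R4 → ℂ) (k : Z4) : FC f k = ∫ x in bx, ch (-k) x * f x := rfl

/-! ### characters -/

/-- the exponent -/
noncomputable def ell (k : Z4) : R4 →L[ℝ] ℂ :=
  (2 * (Real.pi : ℂ) * Complex.I) • ∑ i, ((k i : ℤ) : ℂ) •
    (Complex.ofRealCLM.comp (ContinuousLinearMap.proj (R := ℝ) (φ := fun _ : Fin 4 => ℝ) i))

theorem ell_apply (k : Z4) (x : R4) : ell k x = 2 * (Real.pi : ℂ) * Complex.I *
    (∑ i, ((k i : ℤ) : ℂ) * ((x i : ℝ) : ℂ)) := by
  unfold ell
  simp

theorem ch_eq (k : Z4) (x : R4) : ch k x = Complex.exp (ell k x) := by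
  rw [ell_apply]; rfl

theorem ch_eq' (k : Z4) : ch k = fun x => Complex.exp (ell k x) := funext (ch_eq k)

theorem contDiff_ch (k : Z4) (n : WithTop ℕ∞) : ContDiff ℝ n (ch k) := by
  rw [ch_eq']
  exact (ell k).contDiff.cexp

theorem continuous_ch (k : Z4) : Continuous (ch k) := (contDiff_ch k 0).continuous

theorem ch_add (k l : Z4) (x : R4) : ch (k + l) x = ch k x * ch l x := by
  rw [ch_eq, ch_eq, ch_eq, ← Complex.exp_add, ell_apply, ell_apply, ell_apply, ← mul_add,
    ← Finset.sum_add_distrib]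
  congr 2
  refine Finset.sum_congr rfl fun i _ => ?_
  rw [Pi.add_apply]
  push_cast
  ring

theorem ch_zero (x : R4) : ch 0 x = 1 := by
  rw [ch_eq, ell_apply]; simp

theorem norm_ch (k : Z4) (x : R4) : ‖ch k x‖ = 1 := by
  rw [ch_eq, ell_apply]
  have : 2 * (Real.pi : ℂ) * Complex.I * (∑ i, ((k i : ℤ) : ℂ) * ((x i : ℝ) : ℂ)) =
      ((2 * Real.pi * ∑ i, ((k i : ℤ) : ℝ) * x i : ℝ) : ℂ) * Complex.I := by
    push_cast
    ring
  rw [this, Complex.norm_exp_ofReal_mul_I]

theorem conj_ch (k : Z4) (x : R4) : (starRingEnd ℂ) (ch k x) = ch (-k) x := by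
  have h1 : ch k x * ch (-k) x = 1 := by rw [← ch_add, add_neg_cancel, ch_zero]
  have h2 : ch k x * (starRingEnd ℂ) (ch k x) = 1 := by
    rw [Complex.mul_conj, Complex.normSq_eq_norm_sq, norm_ch]
    simp
  have h3 : ch k x ≠ 0 := by
    intro h
    rw [h, zero_mul] at h1
    exact zero_ne_one h1
  exact mul_left_cancel₀ h3 (h2.trans h1.symm)

theorem per_ch (k : Z4) (n : Fin 4 → ℤ) (x : R4) :
    ch k (fun i => x i + ((n i : ℤ) : ℝ)) = ch k x := by
  rw [ch_eq, ch_eq, Complex.exp_eq_exp_iff_exists_int]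
  refine ⟨∑ i, k i * n i, ?_⟩
  rw [ell_apply, ell_apply]
  have : (∑ i, ((k i : ℤ) : ℂ) * (((x i + ((n i : ℤ) : ℝ) : ℝ)) : ℂ)) =
      (∑ i, ((k i : ℤ) : ℂ) * ((x i : ℝ) : ℂ)) + ((∑ i, k i * n i : ℤ) : ℂ) := by
    push_cast
    rw [← Finset.sum_add_distrib]
    exact Finset.sum_congr rfl fun i _ => by ring
  rw [this]
  ring

theorem perSm_ch (k : Z4) : PerSm (ch k) := ⟨contDiff_ch k _, per_ch k⟩

theorem pd_ch (j : Fin 4) (k : Z4) (x : R4) :
    pd j (ch k) x = 2 * (Real.pi : ℂ) * Complex.I * ((k j : ℤ) : ℂ) * ch k x := by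
  unfold pd
  have h : HasFDerivAt (ch k) (Complex.exp (ell k x) • ell k) x := by
    rw [ch_eq']
    exact (ell k).hasFDerivAt.cexp
  rw [h.fderiv]
  show Complex.exp (ell k x) * ell k (Pi.single j 1) = _
  rw [← ch_eq, ell_apply]
  have : (∑ i, ((k i : ℤ) : ℂ) * (((Pi.single j 1 : R4) i : ℝ) : ℂ)) = ((k j : ℤ) : ℂ) := by
    rw [Finset.sum_eq_single j]
    · simp
    · intro i _ hi
      rw [Pi.single_eq_of_ne hi]
      simp
    · intro h
      exact absurd (Finset.mem_univ j) h
  rw [this]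
  ring

/-! ### smooth periodic functions -/

theorem perAdd {f g : R4 → ℂ} (hf : PerSm f) (hg : PerSm g) : PerSm (fun x => f x + g x) :=
  ⟨hf.smooth.add hg.smooth, fun n x => by
    show f _ + g _ = _
    rw [hf.per n x, hg.per n x]⟩

theorem perMul {f g : R4 → ℂ} (hf : PerSm f) (hg : PerSm g) : PerSm (fun x => f x * g x) :=
  ⟨hf.smooth.mul hg.smooth, fun n x => by
    show f _ * g _ = _
    rw [hf.per n x, hg.per n x]⟩

theorem perSm_const (c : ℂ) : PerSm (fun _ => c) := ⟨contDiff_const, fun _ _ => rfl⟩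

theorem perConj {f : R4 → ℂ} (hf : PerSm f) : PerSm (fun x => (starRingEnd ℂ) (f x)) :=
  ⟨Complex.conjCLE.contDiff.comp hf.smooth, fun n x => by
    show (starRingEnd ℂ) (f _) = _
    rw [hf.per n x]⟩

theorem perCont {f : R4 → ℂ} (hf : PerSm f) : Continuous f := hf.smooth.continuous

theorem perDiff {f : R4 → ℂ} (hf : PerSm f) (x : R4) : DifferentiableAt ℝ f x :=
  hf.smooth.differentiable (by simp) x

theorem perPd {f : R4 → ℂ} (hf : PerSm f) (j : Fin 4) : PerSm (pd j f) := by
  refine ⟨?_, ?_⟩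
  · unfold Pool.Agent.AK.pd
    have h : ContDiff ℝ ((⊤ : ℕ∞) : WithTop ℕ∞) (fderiv ℝ f) :=
      hf.smooth.fderiv_right (by simp)
    exact h.clm_apply contDiff_const
  · intro n x
    unfold Pool.Agent.AK.pd
    have h1 : (fun y : R4 => f (y + fun i => ((n i : ℤ) : ℝ))) = f := by
      funext y
      exact hf.per n y
    have h2 := fderiv_comp_add_right (𝕜 := ℝ) (f := f) (x := x) (fun i => ((n i : ℤ) : ℝ))
    rw [h1] at h2
    rw [h2]
    rfl

theorem pd_mul {f g : R4 → ℂ} (hf : PerSm f) (hg : PerSm g) (j : Fin 4) (x : R4) :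
    pd j (fun x => f x * g x) x = pd j f x * g x + f x * pd j g x := by
  unfold pd
  rw [fderiv_fun_mul (perDiff hf x) (perDiff hg x)]
  simp only [add_apply, smul_apply, smul_eq_mul]
  ring

/-! ### the integral of a derivative -/

theorem integral_pd {g : R4 → ℂ} (hg : PerSm g) (j : Fin 4) : ∫ x in bx, pd j g x = 0 := by
  rw [setIntegral_congr_set bx_ae]
  have hcont : Continuous (pd j g) := perCont (perPd hg j)
  have hle : (0 : R4) ≤ 1 := fun i => zero_le_one
  have hsum : ∀ x : R4, (∑ i, (if i = j then fderiv ℝ g x else 0) (Pi.single i 1)) = pd j g x := by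
    intro x
    rw [Finset.sum_eq_single j]
    · rw [if_pos rfl]; rfl
    · intro i _ hi
      rw [if_neg hi]; rfl
    · intro h
      exact absurd (Finset.mem_univ j) h
  have h := integral_divergence_of_hasFDerivAt_off_countable' (E := ℂ) (n := 3) (0 : R4) 1 hle
    (fun i x => if i = j then g x else 0) (fun i x => if i = j then fderiv ℝ g x else 0) ∅
    Set.countable_empty (fun i => by
      by_cases hi : i = j
      · simp only [hi, if_true]; exact (perCont hg).continuousOn
      · simp only [hi, if_false]; exact continuousOn_const)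
    (fun x _ i => by
      by_cases hi : i = j
      · simp only [hi, if_true]; exact (perDiff hg x).hasFDerivAt
      · simp only [hi, if_false]; exact hasFDerivAt_const _ _)
    (by
      simp only [hsum]
      exact hcont.continuousOn.integrableOn_compact isCompact_Icc)
  simp only [hsum] at h
  rw [h]
  refine Finset.sum_eq_zero fun i _ => ?_
  by_cases hi : i = j
  · subst hi
    simp only [if_true]
    rw [sub_eq_zero]
    refine integral_congr_ae (Filter.Eventually.of_forall fun x => ?_)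
    have hp := hg.per (Pi.single i 1) (Fin.insertNth (α := fun _ => ℝ) i 0 x)
    show g (Fin.insertNth (α := fun _ => ℝ) i 1 x) = g (Fin.insertNth (α := fun _ => ℝ) i 0 x)
    rw [← hp]
    congr 1
    funext l
    refine Fin.succAboveCases i ?_ (fun l => ?_) l
    · simp
    · simp
  · simp only [hi, if_false]
    simp

theorem FC_pd {f : R4 → ℂ} (hf : PerSm f) (j : Fin 4) : FC (pd j f) = dj j (FC f) := by
  funext k
  show FC (pd j f) k = (2 * (Real.pi : ℂ) * Complex.I * ((k j : ℤ) : ℂ)) • FC f k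
  rw [FC_def, FC_def, smul_eq_mul, ← integral_const_mul]
  have h0 := integral_pd (perMul (perSm_ch (-k)) hf) j
  have h1 : ∀ x, pd j (fun x => ch (-k) x * f x) x = ch (-k) x * pd j f x -
      2 * (Real.pi : ℂ) * Complex.I * ((k j : ℤ) : ℂ) * (ch (-k) x * f x) := by
    intro x
    rw [pd_mul (perSm_ch (-k)) hf, pd_ch, Pi.neg_apply]
    push_cast
    ring
  simp only [h1] at h0
  rw [integral_sub] at h0
  · exact sub_eq_zero.mp h0
  · exact integrableOn_bx ((continuous_ch _).mul (perCont (perPd hf j)))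
  · exact integrableOn_bx (continuous_const.mul ((continuous_ch _).mul (perCont hf)))

theorem FC_add {f g : R4 → ℂ} (hf : PerSm f) (hg : PerSm g) :
    FC (fun x => f x + g x) = fun k => FC f k + FC g k := by
  funext k
  rw [FC_def, FC_def, FC_def, ← integral_add]
  · simp only [mul_add]
  · exact integrableOn_bx ((continuous_ch _).mul (perCont hf))
  · exact integrableOn_bx ((continuous_ch _).mul (perCont hg))

theorem FC_smul (c : ℂ) (f : R4 → ℂ) (k : Z4) :
    FC (fun x => c * f x) k = c * FC f k := by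
  rw [FC_def, FC_def, ← integral_const_mul]
  congr 1
  funext x
  ring

theorem norm_FC_le {g : R4 → ℂ} (hg : Continuous g) : ∃ C : ℝ, ∀ k, ‖FC g k‖ ≤ C := by
  obtain ⟨C, hC⟩ := isCompact_Icc.exists_bound_of_continuousOn (s := Set.Icc (0 : R4) 1)
    hg.continuousOn
  refine ⟨C, fun k => ?_⟩
  rw [FC_def]
  have h := norm_setIntegral_le_of_norm_le_const (μ := volume) (s := bx)
    (f := fun x => ch (-k) x * g x) (C := C) (by rw [volume_bx]; exact ENNReal.one_lt_top)
    (fun x hx => by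
      rw [norm_mul, norm_ch, one_mul]
      exact hC x (bx_sub hx))
  have e : volume.real bx = 1 := by rw [measureReal_def, volume_bx]; simp
  rw [e, mul_one] at h
  exact h

theorem exists_lap {f : R4 → ℂ} (hf : PerSm f) : ∃ g : R4 → ℂ, PerSm g ∧
    ∀ k, FC g k = (((Lam 1 k) ^ 2 : ℝ) : ℂ) * FC f k := by
  set c : ℂ := -(1 / (4 * (Real.pi : ℂ) ^ 2)) with hc
  have hd : ∀ j : Fin 4, PerSm (pd j (pd j f)) := fun j => perPd (perPd hf j) j
  refine ⟨fun x => f x + c * (((pd 0 (pd 0 f) x + pd 1 (pd 1 f) x) + pd 2 (pd 2 f) x) +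
    pd 3 (pd 3 f) x), ?_, ?_⟩
  · exact perAdd hf (perMul (perSm_const c) (perAdd (perAdd (perAdd (hd 0) (hd 1)) (hd 2)) (hd 3)))
  · intro k
    have e1 := FC_add hf (perMul (perSm_const c) (perAdd (perAdd (perAdd (hd 0) (hd 1)) (hd 2)) (hd 3)))
    have e2 := FC_smul c (fun x => ((pd 0 (pd 0 f) x + pd 1 (pd 1 f) x) + pd 2 (pd 2 f) x) +
      pd 3 (pd 3 f) x) k
    have e3 := FC_add (perAdd (perAdd (hd 0) (hd 1)) (hd 2)) (hd 3)
    have e4 := FC_add (perAdd (hd 0) (hd 1)) (hd 2)
    have e5 := FC_add (hd 0) (hd 1)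
    have e6 : ∀ j : Fin 4, FC (pd j (pd j f)) k =
        -(4 * (Real.pi : ℂ) ^ 2) * (((k j : ℤ) : ℂ)) ^ 2 * FC f k := by
      intro j
      rw [FC_pd (perPd hf j) j, FC_pd hf j]
      show (2 * (Real.pi : ℂ) * Complex.I * ((k j : ℤ) : ℂ)) •
        ((2 * (Real.pi : ℂ) * Complex.I * ((k j : ℤ) : ℂ)) • FC f k) = _
      rw [smul_eq_mul, smul_eq_mul]
      linear_combination (4 * (Real.pi : ℂ) ^ 2 * (((k j : ℤ) : ℂ)) ^ 2 * FC f k) * Complex.I_sq
    have e7 := congrFun e1 k
    refine e7.trans ?_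
    show FC f k + FC (fun x => c * _) k = _
    rw [e2, e3, e4, e5]
    beta_reduce
    rw [e6, e6, e6, e6, Lam_sq zero_le_one]
    have hpi : (Real.pi : ℂ) ≠ 0 := by exact_mod_cast Real.pi_ne_zero
    unfold sq4
    rw [Fin.sum_univ_four, hc]
    push_cast
    field_simp
    ring

theorem exists_lap_iter {f : R4 → ℂ} (hf : PerSm f) : ∀ n : ℕ, ∃ g : R4 → ℂ, PerSm g ∧
    ∀ k, FC g k = (((Lam 1 k) ^ (2 * n) : ℝ) : ℂ) * FC f k
  | 0 => ⟨f, hf, fun k => by simp⟩
  | n + 1 => by
    obtain ⟨g, hg, h⟩ := exists_lap_iter hf n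
    obtain ⟨g', hg', h'⟩ := exists_lap hg
    refine ⟨g', hg', fun k => ?_⟩
    rw [h', h, ← mul_assoc, ← Complex.ofReal_mul]
    congr 2
    ring

theorem rap_FC {f : R4 → ℂ} (hf : PerSm f) : Rap (FC f) := by
  intro n
  obtain ⟨g, hg, h⟩ := exists_lap_iter hf n
  obtain ⟨C, hC⟩ := norm_FC_le (perCont hg)
  refine ⟨C, fun k => ?_⟩
  have h1 := one_le_Lam (le_refl (1 : ℝ)) k
  calc Lam 1 k ^ n * ‖FC f k‖ ≤ Lam 1 k ^ (2 * n) * ‖FC f k‖ := by
        refine mul_le_mul_of_nonneg_right ?_ (norm_nonneg _)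
        exact pow_le_pow_right₀ h1 (by omega)
    _ = ‖FC g k‖ := by
        rw [h, norm_mul, Complex.norm_real, Real.norm_of_nonneg (by positivity)]
    _ ≤ C := hC k

/-! ### the torus -/

/-- the projection -/
noncomputable def prj : R4 → UnitAddTorus (Fin 4) := Pi.map (fun _ => fun t : ℝ => (t : UnitAddCircle))

theorem prj_quot : IsOpenQuotientMap prj :=
  IsOpenQuotientMap.piMap fun _ => QuotientAddGroup.isOpenQuotientMap_mk

theorem exists_descend {f : R4 → ℂ} (hf : PerSm f) : ∃ F : C(UnitAddTorus (Fin 4), ℂ),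
    ∀ x, F (prj x) = f x := by
  have hs := prj_quot.surjective
  have key : ∀ x y : R4, prj x = prj y → f x = f y := by
    intro x y h
    have h1 : ∀ i, ∃ n : ℤ, x i = y i + n := by
      intro i
      have h2 : ((x i : ℝ) : UnitAddCircle) = ((y i : ℝ) : UnitAddCircle) := congrFun h i
      rw [QuotientAddGroup.eq] at h2
      obtain ⟨m, hm⟩ := AddSubgroup.mem_zmultiples_iff.mp h2
      refine ⟨-m, ?_⟩
      rw [zsmul_eq_mul, mul_one] at hm
      push_cast
      linarith
    choose n hn using h1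
    have h3 := hf.per n y
    rw [← h3]
    congr 1
    funext i
    exact hn i
  refine ⟨⟨fun y => f (Function.surjInv hs y), ?_⟩, ?_⟩
  · rw [prj_quot.isQuotientMap.continuous_iff]
    have : (fun y => f (Function.surjInv hs y)) ∘ prj = f := by
      funext x
      exact key _ _ (Function.surjInv_eq hs (prj x))
    rw [this]
    exact perCont hf
  · intro x
    exact key _ _ (Function.surjInv_eq hs (prj x))

theorem mFourier_prj (k : Z4) (x : R4) : UnitAddTorus.mFourier k (prj x) = ch k x := by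
  show ∏ i, fourier (k i) ((x i : ℝ) : UnitAddCircle) = ch k x
  have : ∀ i, fourier (k i) ((x i : ℝ) : UnitAddCircle) =
      Complex.exp (2 * Real.pi * Complex.I * (k i) * (x i)) := by
    intro i
    rw [fourier_coe_apply]
    simp
  rw [Finset.prod_congr rfl fun i _ => this i, ← Complex.exp_sum]
  unfold ch
  rw [Finset.mul_sum]
  congr 1
  exact Finset.sum_congr rfl fun i _ => by ring

theorem FC_eq_mFourierCoeff {f : R4 → ℂ} {F : C(UnitAddTorus (Fin 4), ℂ)}
    (hF : ∀ x, F (prj x) = f x) : UnitAddTorus.mFourierCoeff F = FC f := by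
  funext k
  rw [UnitAddTorus.mFourierCoeff_eq_integral _ _ (fun _ => 0), FC_def]
  have hset : {x : Fin 4 → ℝ | ∀ i, x i ∈ Ioc ((fun _ => (0 : ℝ)) i) ((fun _ => (0 : ℝ)) i + 1)} =
      bx := by
    ext x
    simp [bx]
  rw [hset]
  refine integral_congr_ae (Filter.Eventually.of_forall fun x => ?_)
  show UnitAddTorus.mFourier (-k) (prj x) • F (prj x) = _
  rw [mFourier_prj, hF, smul_eq_mul]

theorem summable_FC {f : R4 → ℂ} (hf : PerSm f) : Summable (fun k => ‖FC f k‖) := by
  have h := RR.summable (fun k => norm_nonneg (FC f k)) (rap_FC hf) 0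
  simpa using h

theorem hasSum_FC {f : R4 → ℂ} (hf : PerSm f) (x : R4) :
    HasSum (fun k => ch k x * FC f k) (f x) := by
  obtain ⟨F, hF⟩ := exists_descend hf
  have h1 : Summable (UnitAddTorus.mFourierCoeff F) := by
    rw [FC_eq_mFourierCoeff hF]
    exact (summable_FC hf).of_norm
  have h2 := UnitAddTorus.hasSum_mFourier_series_apply_of_summable h1 (prj x)
  rw [FC_eq_mFourierCoeff hF, hF] at h2
  refine h2.congr_fun fun k => ?_
  rw [mFourier_prj, smul_eq_mul, mul_comm]

theorem FC_mul {f g : R4 → ℂ} (hf : PerSm f) (hg : PerSm g) :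
    FC (fun x => f x * g x) = scv (FC f) (FC g) := by
  funext k
  show _ = ∑' l, FC f (k - l) • FC g l
  rw [FC_def]
  obtain ⟨C, hC⟩ := isCompact_Icc.exists_bound_of_continuousOn (s := Set.Icc (0 : R4) 1)
    (perCont hf).continuousOn
  have e : volume.real bx = 1 := by rw [measureReal_def, volume_bx]; simp
  have hint : ∀ l, IntegrableOn (fun x => ch (-(k - l)) x * f x * FC g l) bx := fun l =>
    integrableOn_bx (((continuous_ch _).mul (perCont hf)).mul continuous_const)
  have hsum := hasSum_integral_of_summable_integral_norm (μ := volume.restrict bx)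
    (F := fun (l : Z4) x => ch (-(k - l)) x * f x * FC g l) hint (by
      refine Summable.of_nonneg_of_le (fun l => integral_nonneg fun x => norm_nonneg _)
        (fun l => ?_) ((summable_FC hg).mul_left C)
      calc ∫ x in bx, ‖ch (-(k - l)) x * f x * FC g l‖
          ≤ ∫ x in bx, C * ‖FC g l‖ := by
            refine setIntegral_mono_on (hint l).norm
              (integrableOn_const (by rw [volume_bx]; exact ENNReal.one_ne_top) enorm_ne_top)
              measurableSet_bx fun x hx => ?_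
            rw [norm_mul, norm_mul, norm_ch, one_mul]
            exact mul_le_mul_of_nonneg_right (hC x (bx_sub hx)) (norm_nonneg _)
        _ = C * ‖FC g l‖ := by
            rw [setIntegral_const, e, one_smul])
  have h1 : ∀ l, ∫ x in bx, ch (-(k - l)) x * f x * FC g l = FC f (k - l) • FC g l := by
    intro l
    rw [integral_mul_const, ← FC_def, smul_eq_mul]
  have h2 : ∀ x, (∑' l, ch (-(k - l)) x * f x * FC g l) = ch (-k) x * (f x * g x) := by
    intro x
    have h3 := (hasSum_FC hg x).mul_left (ch (-k) x * f x)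
    rw [mul_assoc] at h3
    rw [← h3.tsum_eq]
    refine tsum_congr fun l => ?_
    have : -(k - l) = -k + l := by abel
    rw [this, ch_add]
    ring
  simp only [h1, h2] at hsum
  exact hsum.tsum_eq.symm

theorem FC_conj (f : R4 → ℂ) :
    FC (fun x => (starRingEnd ℂ) (f x)) = stS (FC f) := by
  funext k
  show _ = (starRingEnd ℂ) (FC f (-k))
  rw [FC_def, FC_def, ← integral_conj]
  congr 1
  funext x
  rw [map_mul, conj_ch, neg_neg]

theorem FC_const (c : ℂ) : FC (fun _ => c) = fun k => if k = 0 then c else 0 := by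
  funext k
  rw [FC_def, integral_mul_const]
  by_cases hk : k = 0
  · subst hk
    rw [if_pos rfl, neg_zero]
    have e : volume.real bx = 1 := by rw [measureReal_def, volume_bx]; simp
    have h : ∫ x in bx, ch 0 x = 1 := by
      simp only [ch_zero]
      rw [setIntegral_const, e, one_smul]
    rw [h, one_mul]
  · rw [if_neg hk]
    obtain ⟨j, hj⟩ : ∃ j, k j ≠ 0 := by
      by_contra h
      push Not at h
      exact hk (funext h)
    have h0 := integral_pd (perSm_ch (-k)) j
    simp only [pd_ch] at h0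
    rw [integral_const_mul] at h0
    have h1 : (2 * (Real.pi : ℂ) * Complex.I * (((-k) j : ℤ) : ℂ)) ≠ 0 := by
      have hpi : (Real.pi : ℂ) ≠ 0 := by exact_mod_cast Real.pi_ne_zero
      have : (((-k) j : ℤ) : ℂ) ≠ 0 := by
        rw [Pi.neg_apply]
        exact_mod_cast neg_ne_zero.mpr hj
      exact mul_ne_zero (mul_ne_zero (mul_ne_zero two_ne_zero hpi) Complex.I_ne_zero) this
    rw [(mul_eq_zero.mp h0).resolve_left h1, zero_mul]

theorem b1 : B1Stmt :=
  ⟨fun _ hf => ⟨rap_FC hf, hasSum_FC hf⟩, fun _ _ hf hg => FC_mul hf hg,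
    fun j _ hf => ⟨perPd hf j, FC_pd hf j⟩, fun _ hf => ⟨perConj hf, FC_conj _⟩,
    fun c => ⟨perSm_const c, FC_const c⟩,
    fun _ _ hf hg => ⟨perAdd hf hg, perMul hf hg, FC_add hf hg⟩⟩

end Pool.Agent.AK.H59
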