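import Pool.Agent.Helper60_AK.StmtF
import Pool.Agent.Helper23_Squeeze.Holo

/-! Squad AK, module F0a (helper59): holomorphic functions of several variables are smooth. -/

set_option autoImplicit false

namespace Pool.Agent.AK.H59

open Pool.Agent.AK

theorem differentiableOn_fderiv {F : Type} [NormedAddCommGroup F] [NormedSpace ℂ F]
    [CompleteSpace F] {Ω : Set C2} (hΩ : IsOpen Ω) {f : C2 → F} (hf : DifferentiableOn ℂ f Ω) :
    DifferentiableOn ℂ (fderiv ℂ f) Ω := by
  have h1 : fderiv ℂ f = fun p => ∑ i : Fin 2, ContinuousLinearMap.smulRightL ℂ C2 F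
      (ContinuousLinearMap.proj (R := ℂ) (φ := fun _ : Fin 2 => ℂ) i)
      (fderiv ℂ f p (Pi.single i 1)) := by
    funext p
    ext v
    have hv : v = ∑ i : Fin 2, v i • (Pi.single i (1 : ℂ) : C2) := by
      funext j
      fin_cases j <;> simp [Fin.sum_univ_two]
    conv_lhs => rw [hv]
    rw [map_sum]
    simp only [map_smul, sum_apply, ContinuousLinearMap.smulRightL_apply_apply,
      ContinuousLinearMap.smulRight_apply, ContinuousLinearMap.proj_apply]
  rw [h1]
  refine DifferentiableOn.fun_sum fun i _ => ?_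
  exact (ContinuousLinearMap.differentiable _).comp_differentiableOn
    (Pool.Agent.Squeeze.differentiableOn_fderiv_apply hΩ hf (Pi.single i 1))

theorem contDiffOn_nat (n : ℕ) : ∀ {F : Type} [NormedAddCommGroup F] [NormedSpace ℂ F]
    [CompleteSpace F] {Ω : Set C2} (_ : IsOpen Ω) {f : C2 → F} (_ : DifferentiableOn ℂ f Ω),
    ContDiffOn ℂ (n : WithTop ℕ∞) f Ω := by
  induction n with
  | zero =>
    intro F _ _ _ Ω hΩ f hf
    exact contDiffOn_zero.mpr hf.continuousOn
  | succ n ih =>
    intro F _ _ _ Ω hΩ f hf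
    have h : ((n + 1 : ℕ) : WithTop ℕ∞) = (n : WithTop ℕ∞) + 1 := by push_cast; rfl
    rw [h, contDiffOn_succ_iff_fderiv_of_isOpen hΩ]
    exact ⟨hf, fun h => absurd h (by simp), ih hΩ (differentiableOn_fderiv hΩ hf)⟩

theorem f0a : F0aStmt := by
  intro Ω f hΩ hf
  have h : ContDiffOn ℂ SM f Ω := contDiffOn_infty.mpr fun n => contDiffOn_nat n hΩ hf
  exact ⟨h, h.restrict_scalars ℝ⟩

end Pool.Agent.AK.H59
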